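import Pool.Agent.TH362.TF.Multi
import Pool.Agent.TH362.TF.Contr
import Pool.Agent.TH362.TF.Cyc
import Pool.Agent.Run7.h878.LF.Fin

/-!
# Two cycles, or the Petersen graph: dominating induced paths (MP_e6539c_co)

Let `G` be a finite multigraph without cut edges, and let `F` be the union of a chain of pieces. If
every induced path with nine vertices of the contracted graph `G / F` is dominating (every vertex
with a neighbour is on the path or has a neighbour on the path; for instance there is no induced path
with nine vertices),
then the edge set of `G` is the union of two cycles, or a component of `G` can be contracted to the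
Petersen graph. (The second alternative cannot occur if `G` has no Petersen minor.)

Here a chain is a sequence of sets of edges (pieces), and `F` is their union; every piece is a circuit
or ear with at most four new edges, or any set without bridge modulo the earlier pieces with at most
four new edges, or a doubly connected set. For the empty chain the condition is a condition on `G`
itself.

Proof. Assume that there is no nowhere-zero 4-flow and no Petersen quotient, and contract disjoint
connected sets as long as this remains true. By the starting library (`R140/PK`, `R890/FF`) the
result `H` has no circuits with at most four edges, no vertices with one or two neighbours, at least 18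
vertices of odd degree, one component with edges, and an induced path with eight vertices. A
computer search, whose certificate is checked by the kernel (`Run7/h878/LF`), shows that `H` contains
an induced path with nine vertices together with a vertex which is not adjacent to it. Induced linear
forests of a contraction can be lifted to the graph. Here and for the class of a Petersen quotient
(the other side of which contains a connected set with all ends of the three edges) only connected sets
are contracted, and this is compatible with the contraction of the chain (`N410/DC`).
-/

set_option autoImplicit false

namespace Pool.Agent.Results.MP_e6539c_co.DominatingInducedPaths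

open Finset Pool.Agent.TH362.Multi

/-- The edges with exactly one end in `X`. -/
def boundary {V E : Type} [DecidableEq V] [Fintype E] (s t : E → V) (X : Finset V) : Finset E :=
  univ.filter (fun e => ¬ (s e ∈ X ↔ t e ∈ X))

/-- The union of the sets `C j` with `j < i`. -/
def earlier {E : Type} [DecidableEq E] {m : ℕ} (C : Fin m → Finset E) (i : Fin m) : Finset E :=
  (univ.filter (fun j => j < i)).biUnion C

/-- `H` can be added to the chain after `F`: either (short) `H` has at most four edges outside `F`
and no bridge modulo `F`: no set `Y` of vertices without boundary edges in `F` has exactly one
boundary edge in `H`; or (doubly connected) `H` contains two disjoint sets each of which connects,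
modulo `F`, whatever `H` connects: every set `Y` of vertices without boundary edges in `F` and with
a boundary edge in `H` has boundary edges in both sets. -/
def Adds {V E : Type} [DecidableEq V] [Fintype E] [DecidableEq E] (s t : E → V)
    (F H : Finset E) : Prop :=
  ((H \ F).card ≤ 4 ∧ ∀ Y : Finset V, Disjoint (boundary s t Y) F →
    (boundary s t Y ∩ H).card ≠ 1) ∨
  ∃ T₁ T₂ : Finset E, T₁ ⊆ H ∧ T₂ ⊆ H ∧ Disjoint T₁ T₂ ∧ ∀ Y : Finset V,
    Disjoint (boundary s t Y) F → ¬ Disjoint (boundary s t Y) H →
      ¬ Disjoint (boundary s t Y) T₁ ∧ ¬ Disjoint (boundary s t Y) T₂

/-- The map `r` contracts the edges of `F` and nothing else: the ends of every edge of `F` have the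
same image, and no set `Y` of vertices without boundary edges in `F` separates `v` and `r v` (so `v`
and `r v` are in the same component of the graph formed by the edges of `F`). The contracted graph is
the graph in which the ends of the edge `e` are the images of the ends of `e`. -/
def Contracts {V E : Type} [DecidableEq V] [Fintype E] [DecidableEq E] (s t : E → V)
    (F : Finset E) (r : V → V) : Prop :=
  (∀ e ∈ F, r (s e) = r (t e)) ∧
    ∀ v, ∀ Y : Finset V, Disjoint (boundary s t Y) F → (v ∈ Y ↔ r v ∈ Y)

/-- The vertices `x` and `y` are different and joined by an edge. -/
def Adjacent {V E : Type} (s t : E → V) (x y : V) : Prop :=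
  x ≠ y ∧ ∃ e, (s e = x ∧ t e = y) ∨ (s e = y ∧ t e = x)

/-- Every induced path `p 0, ..., p 8` with nine vertices is dominating: every vertex with a neighbour
is on the path or has a neighbour on the path. (For instance, there is no induced path with nine
vertices.) -/
def NinePathsDominate {V E : Type} (s t : E → V) : Prop :=
  ∀ p : Fin 9 → V, Function.Injective p →
    (∀ i j : Fin 9, i < j → (Adjacent s t (p i) (p j) ↔ i.val + 1 = j.val)) →
    ∀ x, (∃ y, Adjacent s t x y) → (∃ i, x = p i) ∨ ∃ i, Adjacent s t x (p i)

/-- For some chain of sets of edges with union `F` (for instance the empty chain) the graph which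
arises by the contraction of the edges of `F` has the property above: every induced
path with nine vertices is dominating. -/
def PathsModuloPieces {V E : Type} [Fintype V] [DecidableEq V] [Fintype E] [DecidableEq E]
    (s t : E → V) : Prop :=
  ∃ (m : ℕ) (C : Fin m → Finset E) (r : V → V), (∀ i, Adds s t (earlier C i) (C i)) ∧
    Contracts s t (univ.biUnion C) r ∧
      NinePathsDominate (fun e => r (s e)) (fun e => r (t e))

/-- Let `s t : E → V` be a finite multigraph without isthmuses which satisfies the condition above.
Then the edge set is the union of two cycles, or some component can be contracted to the Petersen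
graph. -/
theorem result (V E : Type) [Fintype V] [DecidableEq V] [Fintype E] [DecidableEq E] (s t : E → V)
    (hb : ∀ e, ¬ Isthmus s t e) (h : PathsModuloPieces s t) :
    (∃ C₁ C₂ : Set E, IsCycle s t C₁ ∧ IsCycle s t C₂ ∧ C₁ ∪ C₂ = Set.univ) ∨
      ContractsToPetersen s t := by
  have h1 := TH362.TF.n1_of s t hb
  obtain ⟨m, C, r, hC, hr, hO⟩ := h
  rcases Run7.h878.LF.Nice.flow (Run7.h878.LF.CCl.nice Run7.h878.LF.unavA)
    (Run7.h878.LF.CCl.of_steps hC hr (Run7.h878.LF.not_hasF_nine hO)) h1 with h2 | h2
  · exact Or.inl (TH362.TF.two_cycles s t h2)
  · exact Or.inr (TH362.TF.contracts s t h1 h2)

end Pool.Agent.Results.MP_e6539c_co.DominatingInducedPaths
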