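import Pool.Agent.TH362.TF.Multi
import Pool.Agent.TH362.TF.Contr
import Pool.Agent.TH362.TF.Cyc
import Pool.Agent.Run7.h335.FM.FarK

/-!
# Two cycles, or the Petersen graph: six or seven sets which are never far (MP_e6539c_co)

Let `G` be a finite multigraph without cut edges, and let `F` be the union of a chain of pieces. If
among any seven pairwise disjoint sets of vertices with at least three boundary edges, none of them in
`F`, two are joined by an edge or by two different paths with two edges, or if this holds for any six
pairwise disjoint sets with exactly three or exactly five boundary edges, none of them in `F`, then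
the edge set of `G` is the union of two cycles, or a component of `G` can be contracted to the
Petersen graph. (The second alternative cannot occur if `G` has no Petersen minor.)

Here a chain is a sequence of sets of edges (pieces), and `F` is their union; every piece is a circuit
or ear with at most four new edges, or any set without bridge modulo the earlier pieces with at most
four new edges, or a doubly connected set. So `F` can contain all but very few edges of `G`.
For instance the first condition holds if `G / F` has independence number at most six.

Proof. After the contraction of `F` let `H` be a quotient without nowhere-zero 4-flow and without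
Petersen quotient such that all proper quotients of `H` have a flow. At least 18 vertices of `H`
have odd degree, no vertex has degree one or two, and `H` has girth at least five (starting library,
`TH362/TF`). A set of `k ≥ 2` vertices of `H` spans at most `2 k - 3` edges (`N410/DC/Sparse.lean`).
So `H` has seven pairwise nonadjacent vertices of degree at least three (`R545/IN`). Let `a`, `b`,
`c` be the numbers of the vertices of degree 3, 5 and of odd degree at least 7. The sum of `4 - d(y)`
over the vertices `y` of `H` which are not isolated is at least six, so `a ≥ 6 + b + 3 c`, and hence
`a + b ≥ 15`. A graph of girth at least five with 15 vertices has six pairwise nonadjacent vertices: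
otherwise all degrees are at least 4 by `R(5) = 11` (eleven vertices without five pairwise
nonadjacent ones form a cubic graph, but 33 is odd), and the neighbours of the two ends of an edge
form an independent set with six vertices. The classes of these vertices of `H` are disjoint sets of
vertices of `G`, and no two of them are close.
-/

set_option autoImplicit false

namespace Pool.Agent.Results.MP_e6539c_co.SixSevenFarSets

open Finset Pool.Agent.TH362.Multi

/-- The edges with exactly one end in `X`. -/
def boundary {V E : Type} [DecidableEq V] [Fintype E] (s t : E → V) (X : Finset V) : Finset E :=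
  univ.filter (fun e => ¬ (s e ∈ X ↔ t e ∈ X))

/-- The union of the sets `C j` with `j < i`. -/
def earlier {E : Type} [DecidableEq E] {m : ℕ} (C : Fin m → Finset E) (i : Fin m) : Finset E :=
  (univ.filter (fun j => j < i)).biUnion C

/-- `H` can be added to the chain after `F`: either (short) `H` has at most four edges outside `F`
and no bridge modulo `F`: no set `Y` of vertices without boundary edges in `F` has exactly one
boundary edge in `H`; or (doubly connected) `H` contains two disjoint sets each of which connects,
modulo `F`, whatever `H` connects: every set `Y` of vertices without boundary edges in `F` and with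
a boundary edge in `H` has boundary edges in both sets. -/
def Adds {V E : Type} [DecidableEq V] [Fintype E] [DecidableEq E] (s t : E → V)
    (F H : Finset E) : Prop :=
  ((H \ F).card ≤ 4 ∧ ∀ Y : Finset V, Disjoint (boundary s t Y) F →
    (boundary s t Y ∩ H).card ≠ 1) ∨
  ∃ T₁ T₂ : Finset E, T₁ ⊆ H ∧ T₂ ⊆ H ∧ Disjoint T₁ T₂ ∧ ∀ Y : Finset V,
    Disjoint (boundary s t Y) F → ¬ Disjoint (boundary s t Y) H →
      ¬ Disjoint (boundary s t Y) T₁ ∧ ¬ Disjoint (boundary s t Y) T₂

/-- The edge `e` joins the set `X` and the vertex `a`. -/
def Joins {V E : Type} (s t : E → V) (X : Finset V) (a : V) (e : E) : Prop :=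
  (s e ∈ X ∧ t e = a) ∨ (s e = a ∧ t e ∈ X)

/-- The sets `X` and `Y` are joined by an edge, or by two different paths with two edges. -/
def Close {V E : Type} (s t : E → V) (X Y : Finset V) : Prop :=
  (∃ e, (s e ∈ X ∧ t e ∈ Y) ∨ (s e ∈ Y ∧ t e ∈ X)) ∨
    ∃ (e f e' f' : E) (a b : V), (e ≠ e' ∨ f ≠ f') ∧ Joins s t X a e ∧ Joins s t Y a f ∧
      Joins s t X b e' ∧ Joins s t Y b f'

/-- Among any `k` pairwise disjoint sets of vertices whose numbers of boundary edges satisfy `P`,
without boundary edges in `F`, two are close. -/
def FarFree {V E : Type} [DecidableEq V] [Fintype E] [DecidableEq E] (s t : E → V)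
    (k : ℕ) (P : ℕ → Prop) (F : Finset E) : Prop :=
  ∀ X : Fin k → Finset V, (∀ i j, i ≠ j → Disjoint (X i) (X j)) →
    (∀ i, Disjoint (boundary s t (X i)) F) → (∀ i, P (boundary s t (X i)).card) →
    ∃ i j, i ≠ j ∧ Close s t (X i) (X j)

/-- For some chain of sets of edges (for instance the empty chain), either among any seven pairwise
disjoint sets of vertices with at least three boundary edges, none of them in the chain, two are
close, or among any six pairwise disjoint sets of vertices with exactly three or exactly five
boundary edges, none of them in the chain, two are close. -/
def NeverFar {V E : Type} [Fintype V] [DecidableEq V] [Fintype E] [DecidableEq E]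
    (s t : E → V) : Prop :=
  ∃ (m : ℕ) (C : Fin m → Finset E), (∀ i, Adds s t (earlier C i) (C i)) ∧
    (FarFree s t 7 (fun n => 3 ≤ n) (univ.biUnion C) ∨
      FarFree s t 6 (fun n => n = 3 ∨ n = 5) (univ.biUnion C))

/-- Let `s t : E → V` be a finite multigraph without isthmuses which satisfies the condition above.
Then the edge set is the union of two cycles, or some component can be contracted to the Petersen
graph. -/
theorem result (V E : Type) [Fintype V] [DecidableEq V] [Fintype E] [DecidableEq E] (s t : E → V)
    (hb : ∀ e, ¬ Isthmus s t e) (h : NeverFar s t) :
    (∃ C₁ C₂ : Set E, IsCycle s t C₁ ∧ IsCycle s t C₂ ∧ C₁ ∪ C₂ = Set.univ) ∨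
      ContractsToPetersen s t := by
  have h1 := TH362.TF.n1_of s t hb
  obtain ⟨m, C, hC, hO⟩ := h
  rcases (N410.DC.GCl.of_steps hC hO).flow Run7.h335.FM.inh_far67 h1 with h2 | h2
  · exact Or.inl (TH362.TF.two_cycles s t h2)
  · exact Or.inr (TH362.TF.contracts s t h1 h2)

end Pool.Agent.Results.MP_e6539c_co.SixSevenFarSets
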